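import Pool.Agent.Helper38.TP4.Tur3

/-!
# Turán's constructions contain no bad pieces
-/

set_option autoImplicit false

open Finset

namespace Pool.Agent.Helper38.TP4

open Pool.Agent.N442.LP Pool.Agent.N442.LP.Tur Pool.Agent.Helper38.TP3

theorem fin1 : ∀ a b c : Fin 2 → Fin 3, (∀ p q r, sp (a p) (b q) (c r)) →
    ((∀ q, ¬ sp (a 0) (a 1) (b q)) ∨ (∀ q, ¬ sp (b 0) (b 1) (a q))) →
    ((∀ q, ¬ sp (a 0) (a 1) (c q)) ∨ (∀ q, ¬ sp (c 0) (c 1) (a q))) →
    ((∀ q, ¬ sp (b 0) (b 1) (c q)) ∨ (∀ q, ¬ sp (c 0) (c 1) (b q))) → False := by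
  decide

theorem fin2 : ∀ a b c : Fin 2 → Fin 3, (∀ p q r, ¬ sp (a p) (b q) (c r)) →
    (∀ q, sp (a 0) (a 1) (b q)) → (∀ q, sp (b 0) (b 1) (a q)) →
    (∀ q, sp (a 0) (a 1) (c q)) → False := by
  decide

theorem nat1 {L : ℕ} (a b c : Fin 2 → ℕ) (h : ∀ p q r, HT L (a p) (b q) (c r))
    (h1 : (∀ q, ¬ HT L (a 0) (a 1) (b q)) ∨ (∀ q, ¬ HT L (b 0) (b 1) (a q)))
    (h2 : (∀ q, ¬ HT L (a 0) (a 1) (c q)) ∨ (∀ q, ¬ HT L (c 0) (c 1) (a q)))
    (h3 : (∀ q, ¬ HT L (b 0) (b 1) (c q)) ∨ (∀ q, ¬ HT L (c 0) (c 1) (b q))) : False := by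
  have ha : ∀ p, blk L (a p) = blk L (b 0) := fun p => (h p 0 0).1
  have hc : ∀ r, blk L (c r) = blk L (b 0) := fun r => (h 0 0 r).2.1.symm
  have hb : ∀ q, blk L (b q) = blk L (b 0) := fun q => (h 0 q 0).1.symm.trans (ha 0)
  by_cases hn : L % 2 = 0 ∨ blk L (b 0) ≠ 0
  · have key : ∀ x y z : ℕ, blk L x = blk L (b 0) → blk L y = blk L (b 0) →
        blk L z = blk L (b 0) → HT L x y z := by
      intro x y z hx hy hz
      refine ⟨hx.trans hy.symm, hy.trans hz.symm, ?_⟩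
      rcases hn with hn | hn
      · exact Or.inl hn
      · exact Or.inr (Or.inl (by rw [hx]; exact hn))
    rcases h1 with h1 | h1
    · exact h1 0 (key _ _ _ (ha _) (ha _) (hb _))
    · exact h1 0 (key _ _ _ (hb _) (hb _) (ha _))
  · push Not at hn
    obtain ⟨hL, hv⟩ := hn
    have ha' : ∀ p, blk L (a p) = 0 := fun p => (ha p).trans hv
    have hb' : ∀ p, blk L (b p) = 0 := fun p => (hb p).trans hv
    have hc' : ∀ p, blk L (c p) = 0 := fun p => (hc p).trans hv
    simp only [HT_sp hL (ha' _) (hb' _) (hc' _), HT_sp hL (ha' _) (ha' _) (hb' _),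
      HT_sp hL (ha' _) (ha' _) (hc' _), HT_sp hL (hb' _) (hb' _) (ha' _),
      HT_sp hL (hb' _) (hb' _) (hc' _), HT_sp hL (hc' _) (hc' _) (ha' _),
      HT_sp hL (hc' _) (hc' _) (hb' _)] at h h1 h2 h3
    exact fin1 (fun p => ⟨a p, lt3 hL (ha' p)⟩) (fun p => ⟨b p, lt3 hL (hb' p)⟩)
      (fun p => ⟨c p, lt3 hL (hc' p)⟩) h h1 h2 h3

theorem nat2 {L : ℕ} (a b c : Fin 2 → ℕ) (h : ∀ p q r, ¬ HT L (a p) (b q) (c r))
    (h1 : ∀ q, HT L (a 0) (a 1) (b q)) (h2 : ∀ q, HT L (b 0) (b 1) (a q))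
    (h3 : ∀ q, HT L (a 0) (a 1) (c q)) : False := by
  have hb : ∀ q, blk L (b q) = blk L (a 1) := fun q => (h1 q).2.1.symm
  have ha : ∀ p, blk L (a p) = blk L (a 1) := by
    intro p
    exact (h2 p).2.1.symm.trans (hb 1)
  have hc : ∀ r, blk L (c r) = blk L (a 1) := fun r => (h3 r).2.1.symm
  by_cases hn : L % 2 = 0 ∨ blk L (a 1) ≠ 0
  · apply h 0 0 0
    refine ⟨(ha 0).trans (hb 0).symm, (hb 0).trans (hc 0).symm, ?_⟩
    rcases hn with hn | hn
    · exact Or.inl hn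
    · exact Or.inr (Or.inl (by rw [ha]; exact hn))
  · push Not at hn
    obtain ⟨hL, hv⟩ := hn
    have ha' : ∀ p, blk L (a p) = 0 := fun p => (ha p).trans hv
    have hb' : ∀ p, blk L (b p) = 0 := fun p => (hb p).trans hv
    have hc' : ∀ p, blk L (c p) = 0 := fun p => (hc p).trans hv
    simp only [HT_sp hL (ha' _) (hb' _) (hc' _), HT_sp hL (ha' _) (ha' _) (hb' _),
      HT_sp hL (ha' _) (ha' _) (hc' _), HT_sp hL (hb' _) (hb' _) (ha' _)] at h h1 h2 h3
    exact fin2 (fun p => ⟨a p, lt3 hL (ha' p)⟩) (fun p => ⟨b p, lt3 hL (hb' p)⟩)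
      (fun p => ⟨c p, lt3 hL (hc' p)⟩) h h1 h2 h3

/-- the six vertices -/
def six {t : ℕ} (ht : 2 ≤ t) (i : Fin 3) (p : Fin 2) : Fin 3 × Fin t := (i, ⟨p.val, by omega⟩)

theorem six_ne {t : ℕ} (ht : 2 ≤ t) {i j : Fin 3} {p q : Fin 2} (h : i ≠ j ∨ p ≠ q) :
    six ht i p ≠ six ht j q := by
  intro e
  simp only [six, Prod.mk.injEq, Fin.mk.injEq] at e
  rcases h with h | h
  · exact h e.1
  · exact h (Fin.ext e.2)

open scoped Classical in
theorem no_pt {L n t : ℕ} (ht : 2 ≤ t) {D : Fin 3 → Fin 3 → Bool} {τ : Bool} (hb : Bad D τ) :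
    cps (pt D τ t) (tur L n) = 0 := by
  unfold cps
  rw [card_eq_zero, filter_eq_empty_iff]
  rintro f - ⟨hf, h⟩
  have key : ∀ (i j l : Fin 3) (p q r : Fin 2), (i ≠ j ∨ p ≠ q) → (i ≠ l ∨ p ≠ r) →
      (j ≠ l ∨ q ≠ r) → (tb D τ i j l = true ↔ ¬ HT L ((f (six ht i p)).val % L)
        ((f (six ht j q)).val % L) ((f (six ht l r)).val % L)) := by
    intro i j l p q r h1 h2 h3
    have n1 := six_ne ht h1
    have n2 := six_ne ht h2
    have n3 := six_ne ht h3
    have h4 := h {six ht i p, six ht j q, six ht l r}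
      (card_eq_three.mpr ⟨_, _, _, n1, n2, n3, rfl⟩)
    unfold pt at h4
    rw [mem_gr D τ n1 n2 n3] at h4
    have h5 : ({six ht i p, six ht j q, six ht l r} : Finset (Fin 3 × Fin t)).image f =
        {f (six ht i p), f (six ht j q), f (six ht l r)} := by
      rw [image_insert, image_insert, image_singleton]
    rw [← mem_tur (hf.ne n1) (hf.ne n3) (hf.ne n2), ← h5]
    convert h4 using 2
    congr!
  have d01 : (0 : Fin 2) ≠ 1 := by decide
  have two : ∀ i j : Fin 3, i ≠ j → ∀ q, (D i j = true ↔ ¬ HT L ((f (six ht i 0)).val % L)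
      ((f (six ht i 1)).val % L) ((f (six ht j q)).val % L)) := by
    intro i j hij q
    rw [← key i i j 0 1 q (Or.inr d01) (Or.inl hij) (Or.inl hij)]
    unfold tb
    simp [hij]
  have dec : ∀ i j : Fin 3, i ≠ j → D i j = false → ∀ q, HT L ((f (six ht i 0)).val % L)
      ((f (six ht i 1)).val % L) ((f (six ht j q)).val % L) := by
    intro i j hij hd q
    by_contra hn
    rw [← two i j hij q, hd] at hn
    exact absurd hn (by decide)
  rcases hb with ⟨rfl, hb⟩ | ⟨rfl, i, j, l, hij, hil, hjl, h1, h2, h3⟩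
  · refine nat1 (L := L) (fun p => (f (six ht 0 p)).val % L) (fun p => (f (six ht 1 p)).val % L)
      (fun p => (f (six ht 2 p)).val % L) ?_ ?_ ?_ ?_
    · intro p q r
      have := key 0 1 2 p q r (Or.inl (by decide)) (Or.inl (by decide)) (Or.inl (by decide))
      by_contra hn
      rw [← this] at hn
      have h0 : tb D false 0 1 2 = false := by
        unfold tb
        simp
      rw [h0] at hn
      exact absurd hn (by decide)
    · rcases hb 0 1 (by decide) with h | h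
      · exact Or.inl fun q => (two 0 1 (by decide) q).mp h
      · exact Or.inr fun q => (two 1 0 (by decide) q).mp h
    · rcases hb 0 2 (by decide) with h | h
      · exact Or.inl fun q => (two 0 2 (by decide) q).mp h
      · exact Or.inr fun q => (two 2 0 (by decide) q).mp h
    · rcases hb 1 2 (by decide) with h | h
      · exact Or.inl fun q => (two 1 2 (by decide) q).mp h
      · exact Or.inr fun q => (two 2 1 (by decide) q).mp h
  · refine nat2 (L := L) (fun p => (f (six ht i p)).val % L) (fun p => (f (six ht j p)).val % L)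
      (fun p => (f (six ht l p)).val % L) ?_ ?_ ?_ ?_
    · intro p q r
      rw [← key i j l p q r (Or.inl hij) (Or.inl hil) (Or.inl hjl)]
      unfold tb
      simp [hij, hil, hjl]
    · exact dec i j hij h1
    · exact dec j i hij.symm h2
    · exact dec i l hil h3

end Pool.Agent.Helper38.TP4
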