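import Pool.Agent.Helper38.TP3.Spans

/-!
# Three-class 3-graphs: positions of a copy in a blow-up, numbers of edges
-/

set_option autoImplicit false

open Finset
open scoped Classical

namespace Pool.Agent.Helper38.TP4

open Pool.Agent.N442.LP Pool.Agent.Helper38.TP3

/-- the classes of the vertices of an edge: `D i j` for two vertices in the class `i` and one in the
class `j`, `τ` for three different classes -/
def tb (D : Fin 3 → Fin 3 → Bool) (τ : Bool) (a b c : Fin 3) : Bool :=
  if a = b then (if b = c then false else D a c)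
  else if a = c then D a b
  else if b = c then D b a
  else τ

theorem tb12 (D : Fin 3 → Fin 3 → Bool) (τ : Bool) (a b c : Fin 3) : tb D τ a b c = tb D τ b a c := by
  unfold tb
  by_cases h1 : a = b <;> by_cases h2 : a = c <;> by_cases h3 : b = c <;> simp_all [eq_comm]

theorem tb23 (D : Fin 3 → Fin 3 → Bool) (τ : Bool) (a b c : Fin 3) : tb D τ a b c = tb D τ a c b := by
  unfold tb
  by_cases h1 : a = b <;> by_cases h2 : a = c <;> by_cases h3 : b = c <;> simp_all [eq_comm]

/-- the 3-graph on the vertices `V` with classes `c` -/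
noncomputable def gr (D : Fin 3 → Fin 3 → Bool) (τ : Bool) {V : Type} [Fintype V] (c : V → Fin 3) :
    Finset (Finset V) :=
  univ.filter fun e => e.card = 3 ∧ ∀ x ∈ e, ∀ y ∈ e, ∀ z ∈ e, x ≠ y → x ≠ z → y ≠ z →
    tb D τ (c x) (c y) (c z) = true

theorem mem_gr (D : Fin 3 → Fin 3 → Bool) (τ : Bool) {V : Type} [Fintype V] [DecidableEq V] {c : V → Fin 3}
    {u v w : V} (huv : u ≠ v) (huw : u ≠ w) (hvw : v ≠ w) :
    ({u, v, w} : Finset V) ∈ gr D τ c ↔ tb D τ (c u) (c v) (c w) = true := by
  have h3 : ({u, v, w} : Finset V).card = 3 :=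
    card_eq_three.mpr ⟨u, v, w, huv, huw, hvw, rfl⟩
  simp only [gr, mem_filter, mem_univ, true_and, h3]
  constructor
  · intro h
    exact h u (by simp) v (by simp) w (by simp) huv huw hvw
  · intro h x hx y hy z hz hxy hxz hyz
    simp only [mem_insert, mem_singleton] at hx hy hz
    rcases hx with rfl | rfl | rfl <;> rcases hy with rfl | rfl | rfl <;>
      rcases hz with rfl | rfl | rfl <;>
      first
      | exact absurd rfl hxy
      | exact absurd rfl hxz
      | exact absurd rfl hyz
      | exact h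
      | (rw [tb12]; exact h)
      | (rw [tb23]; exact h)
      | (rw [tb12, tb23]; exact h)
      | (rw [tb23, tb12]; exact h)
      | (rw [tb12, tb23, tb12]; exact h)

theorem gr_three (D : Fin 3 → Fin 3 → Bool) (τ : Bool) {V : Type} [Fintype V] (c : V → Fin 3) :
    ∀ t ∈ gr D τ c, t.card = 3 := fun _ ht => (mem_filter.mp ht).2.1

/-- the piece with classes of `t` vertices -/
noncomputable def pt (D : Fin 3 → Fin 3 → Bool) (τ : Bool) (t : ℕ) : Finset (Finset (Fin 3 × Fin t)) :=
  gr D τ fun x : Fin 3 × Fin t => x.1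

theorem gr_sub (D : Fin 3 → Fin 3 → Bool) (τ : Bool) {k : ℕ} (c : Fin k → Fin 3) :
    Sub (gr D τ c) (pt D τ k) := by
  have hi : Function.Injective (fun i => (c i, i) : Fin k → Fin 3 × Fin k) :=
    fun i j h => congrArg Prod.snd h
  refine ⟨⟨fun i => (c i, i), hi⟩, fun e he => ?_⟩
  obtain ⟨u, v, w, huv, huw, hvw, rfl⟩ := card_eq_three.mp he
  rw [mem_gr D τ huv huw hvw, map_insert, map_insert, map_singleton]
  change _ ↔ ({(c u, u), (c v, v), (c w, w)} : Finset (Fin 3 × Fin k)) ∈ pt D τ k
  unfold pt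
  rw [mem_gr D τ (hi.ne huv) (hi.ne huw) (hi.ne hvw)]

/-- positions of a copy in a blow-up -/
theorem pos {D : Fin 3 → Fin 3 → Bool} {τ : Bool} {k t n : ℕ} {G : Finset (Finset (Fin n))}
    {P : Fin k → Fin k → Fin k → Prop} {y : Fin k → Fin (t + 2) → Fin n} (hR : Real G P y)
    (hI : Inj y) {v : Fin 3 → Fin k} (hv : Function.Injective v)
    (h : ∀ a b c, (tb D τ a b c = true ↔ P (v a) (v b) (v c))) : HasCp (pt D τ t) G y := by
  have hi : Function.Injective (fun x : Fin 3 × Fin t => (v x.1, x.2.castAdd 2)) := by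
    rintro ⟨a, p⟩ ⟨b, q⟩ hab
    simp only [Prod.mk.injEq] at hab
    obtain ⟨h1, h2⟩ := hab
    rw [hv h1, Fin.castAdd_injective _ _ h2]
  refine ⟨fun x => (v x.1, x.2.castAdd 2), hi, ?_, ?_⟩
  · intro a b hab
    have := hI _ _ _ _ hab
    exact hi (Prod.ext this.1 this.2)
  · intro e he
    obtain ⟨u, w, z, huw, huz, hwz, rfl⟩ := card_eq_three.mp he
    unfold pt
    rw [mem_gr D τ huw huz hwz, h, image_insert, image_insert, image_singleton]
    exact (hR _ _ _ _ _ _ (hi.ne huw) (hi.ne hwz) (hi.ne huz)).symm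

/-- the three-class pattern of three parts -/
theorem tb_iff {k : ℕ} {P : Fin k → Fin k → Fin k → Prop} (hP : IsPat P) (v : Fin 3 → Fin k)
    (a b c : Fin 3) :
    tb (fun a b => decide (P (v a) (v a) (v b))) (decide (P (v 0) (v 1) (v 2))) a b c = true ↔
      P (v a) (v b) (v c) := by
  have i0 := hP.irr (v a)
  have i1 := hP.irr (v b)
  have i2 := hP.irr (v c)
  have r : ∀ x y : Fin k, P x x y → P x y x := fun x y h => hP.s23 h
  have r' : ∀ x y : Fin k, P x y x → P x x y := fun x y h => hP.s23 h
  have q : ∀ x y : Fin k, P x x y → P y x x := fun x y h => hP.s12 (hP.s23 h)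
  have q' : ∀ x y : Fin k, P y x x → P x x y := fun x y h => hP.s23 (hP.s12 h)
  unfold tb
  by_cases h1 : a = b
  · subst h1
    by_cases h2 : a = c
    · subst h2
      simp [i0]
    · simp [h2]
  · by_cases h2 : a = c
    · subst h2
      simp only [h1, if_false, if_true, decide_eq_true_eq]
      exact ⟨r _ _, r' _ _⟩
    · by_cases h3 : b = c
      · subst h3
        simp only [h1, if_false, if_true, decide_eq_true_eq]
        exact ⟨q _ _, q' _ _⟩
      · simp only [h1, h2, h3, if_false, decide_eq_true_eq]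
        have s12 : ∀ {a b c}, P a b c → P b a c := hP.s12
        have s23 : ∀ {a b c}, P a b c → P a c b := hP.s23
        fin_cases a <;> fin_cases b <;> fin_cases c <;> simp_all <;>
          first
          | exact ⟨fun h => s12 h, fun h => s12 h⟩
          | exact ⟨fun h => s23 h, fun h => s23 h⟩
          | exact ⟨fun h => s12 (s23 h), fun h => s23 (s12 h)⟩
          | exact ⟨fun h => s23 (s12 h), fun h => s12 (s23 h)⟩
          | exact ⟨fun h => s12 (s23 (s12 h)), fun h => s12 (s23 (s12 h))⟩

/-- three parts which carry the pattern -/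
theorem pos' {k t n : ℕ} {G : Finset (Finset (Fin n))}
    {P : Fin k → Fin k → Fin k → Prop} {y : Fin k → Fin (t + 2) → Fin n} (hP : IsPat P)
    (hR : Real G P y) (hI : Inj y) {v : Fin 3 → Fin k} (hv : Function.Injective v) :
    HasCp (pt (fun a b => decide (P (v a) (v a) (v b))) (decide (P (v 0) (v 1) (v 2))) t) G y :=
  pos hR hI hv (tb_iff hP v)

/-! ### Numbers of edges -/

/-- the pairs of classes -/
def prs : Finset (Fin 3 × Fin 3) := univ.filter fun p => p.1 ≠ p.2

/-- the number of edges, in terms of the sizes of the classes -/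
def num (D : Fin 3 → Fin 3 → Bool) (τ : Bool) (s : Fin 3 → ℕ) : ℕ :=
  (if τ then s 0 * s 1 * s 2 else 0) +
    ∑ p ∈ prs, if D p.1 p.2 then s p.2 * (s p.1).choose 2 else 0

theorem onetwo_three {k : ℕ} {A B : Finset (Fin k)} {e : Finset (Fin k)} (hd : Disjoint A B)
    (h : e ∈ onetwo A B) : e.card = 3 := ((mem_onetwo hd).mp h).1

/-- two vertices of the class `i`, one of the class `j` -/
theorem mem_onetwo' {k : ℕ} {c : Fin k → Fin 3} {i j : Fin 3} (hij : i ≠ j) {u v w : Fin k}
    (huv : u ≠ v) (huw : u ≠ w) (hvw : v ≠ w) :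
    ({u, v, w} : Finset (Fin k)) ∈ onetwo (cl c j) (cl c i) ↔
      (c u = j ∧ c v = i ∧ c w = i) ∨ (c v = j ∧ c u = i ∧ c w = i) ∨
        (c w = j ∧ c u = i ∧ c v = i) := by
  have h3 : ({u, v, w} : Finset (Fin k)).card = 3 :=
    card_eq_three.mpr ⟨u, v, w, huv, huw, hvw, rfl⟩
  have hvu := huv.symm
  have hwu := huw.symm
  have hwv := hvw.symm
  rw [mem_onetwo (cl_disj c hij.symm)]
  simp only [h3, true_and, mem_cl, mem_insert, mem_singleton, forall_eq_or_imp, forall_eq]
  constructor
  · rintro ⟨x, hx, rfl | rfl | rfl, h1, h2, h3⟩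
    · exact Or.inl ⟨hx, h2 hvu, h3 hwu⟩
    · exact Or.inr (Or.inl ⟨hx, h1 huv, h3 hwv⟩)
    · exact Or.inr (Or.inr ⟨hx, h1 huw, h2 hvw⟩)
  · rintro (⟨h1, h2, h3⟩ | ⟨h1, h2, h3⟩ | ⟨h1, h2, h3⟩)
    · exact ⟨u, h1, Or.inl rfl, fun h => absurd rfl h, fun _ => h2, fun _ => h3⟩
    · exact ⟨v, h1, Or.inr (Or.inl rfl), fun _ => h2, fun h => absurd rfl h, fun _ => h3⟩
    · exact ⟨w, h1, Or.inr (Or.inr rfl), fun _ => h2, fun _ => h3, fun h => absurd rfl h⟩

theorem mem_ones {k : ℕ} {c : Fin k → Fin 3} {u v w : Fin k}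
    (huv : u ≠ v) (huw : u ≠ w) (hvw : v ≠ w) :
    ({u, v, w} : Finset (Fin k)) ∈ ones (cl c 0) (cl c 1) (cl c 2) ↔
      c u ≠ c v ∧ c u ≠ c w ∧ c v ≠ c w := by
  have h3 : ({u, v, w} : Finset (Fin k)).card = 3 :=
    card_eq_three.mpr ⟨u, v, w, huv, huw, hvw, rfl⟩
  have h0 : ones (cl c 0) (cl c 1) (cl c 2) = pull 0 c := by
    ext e
    unfold ones
    simp only [pull, mem_filter, mem_univ, true_and, mem_image, mem_product, mem_cl, Prod.exists]
    constructor
    · rintro ⟨x, y, z, ⟨cx, cy, cz⟩, rfl⟩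
      have hxy : x ≠ y := by rintro rfl; exact absurd (cx.symm.trans cy) (by decide)
      have hxz : x ≠ z := by rintro rfl; exact absurd (cx.symm.trans cz) (by decide)
      have hyz : y ≠ z := by rintro rfl; exact absurd (cy.symm.trans cz) (by decide)
      refine ⟨card_eq_three.mpr ⟨x, y, z, hxy, hxz, hyz, rfl⟩, fun i => ?_⟩
      fin_cases i
      · exact ⟨x, by simp, cx⟩
      · exact ⟨y, by simp, cy⟩
      · exact ⟨z, by simp, cz⟩
    · rintro ⟨h3, h⟩
      obtain ⟨x, hx, cx⟩ := h 0
      obtain ⟨y, hy, cy⟩ := h 1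
      obtain ⟨z, hz, cz⟩ := h 2
      refine ⟨x, y, z, ⟨cx, cy, cz⟩, ?_⟩
      have hxy : x ≠ y := by rintro rfl; exact absurd (cx.symm.trans cy) (by decide)
      have hxz : x ≠ z := by rintro rfl; exact absurd (cx.symm.trans cz) (by decide)
      have hyz : y ≠ z := by rintro rfl; exact absurd (cy.symm.trans cz) (by decide)
      refine eq_of_subset_of_card_le ?_ ?_
      · intro v hv
        simp only [mem_insert, mem_singleton] at hv
        rcases hv with rfl | rfl | rfl <;> assumption
      · rw [h3, card_eq_three.mpr ⟨x, y, z, hxy, hxz, hyz, rfl⟩]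
  rw [h0, mem_pull 0 huv huw hvw]
  unfold ty
  simp only
  generalize c u = a
  generalize c v = b
  generalize c w = d
  revert a b d
  decide

theorem gr_eq (D : Fin 3 → Fin 3 → Bool) (τ : Bool) {k : ℕ} (c : Fin k → Fin 3) :
    gr D τ c = (if τ then ones (cl c 0) (cl c 1) (cl c 2) else ∅) ∪
      prs.biUnion fun p => if D p.1 p.2 then onetwo (cl c p.2) (cl c p.1) else ∅ := by
  ext e
  by_cases h3 : e.card = 3
  · obtain ⟨u, v, w, huv, huw, hvw, rfl⟩ := card_eq_three.mp h3
    rw [mem_gr D τ huv huw hvw, mem_union, mem_biUnion]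
    have e1 : ({u, v, w} : Finset (Fin k)) ∈ (if τ = true then ones (cl c 0) (cl c 1) (cl c 2) else ∅) ↔
        τ = true ∧ c u ≠ c v ∧ c u ≠ c w ∧ c v ≠ c w := by
      by_cases ht : τ = true
      · simp only [ht, if_true, true_and]
        exact mem_ones huv huw hvw
      · simp [ht]
    have e2 : (∃ a ∈ prs, ({u, v, w} : Finset (Fin k)) ∈
        (if D a.1 a.2 = true then onetwo (cl c a.2) (cl c a.1) else ∅)) ↔
        ∃ i j : Fin 3, i ≠ j ∧ D i j = true ∧ ((c u = j ∧ c v = i ∧ c w = i) ∨
          (c v = j ∧ c u = i ∧ c w = i) ∨ (c w = j ∧ c u = i ∧ c v = i)) := by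
      constructor
      · rintro ⟨⟨i, j⟩, hp, h⟩
        have hij : i ≠ j := (mem_filter.mp hp).2
        by_cases hd : D i j = true
        · simp only [hd, if_true] at h
          exact ⟨i, j, hij, hd, (mem_onetwo' hij huv huw hvw).mp h⟩
        · simp [hd] at h
      · rintro ⟨i, j, hij, hd, h⟩
        refine ⟨(i, j), mem_filter.mpr ⟨mem_univ _, hij⟩, ?_⟩
        simp only [hd, if_true]
        exact (mem_onetwo' hij huv huw hvw).mpr h
    rw [e1, e2]
    unfold tb
    generalize c u = a
    generalize c v = b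
    generalize c w = d
    by_cases h1 : a = b
    · subst h1
      by_cases h2 : a = d
      · subst h2
        simp only [if_true, Bool.false_eq_true, false_iff]
        rintro (h | ⟨i, j, hij, -, h⟩)
        · exact h.2.1 rfl
        · rcases h with ⟨h1, h2, h3⟩ | ⟨h1, h2, h3⟩ | ⟨h1, h2, h3⟩ <;>
            exact hij (h2.symm.trans h1)
      · simp only [if_true, h2, if_false, ne_eq, not_true_eq_false, false_and, and_false, false_or]
        constructor
        · intro h
          exact ⟨a, d, h2, h, Or.inr (Or.inr ⟨rfl, rfl, rfl⟩)⟩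
        · rintro ⟨i, j, hij, hd, h⟩
          rcases h with ⟨rfl, h2, h3⟩ | ⟨rfl, h2, h3⟩ | ⟨h1, h2, h3⟩
          · exact absurd h2.symm hij
          · exact absurd h2.symm hij
          · rw [h1, h2]; exact hd
    · by_cases h2 : a = d
      · subst h2
        simp only [h1, if_true, if_false, ne_eq, not_true_eq_false, false_and, and_false, false_or]
        constructor
        · intro h
          exact ⟨a, b, h1, h, Or.inr (Or.inl ⟨rfl, rfl, rfl⟩)⟩
        · rintro ⟨i, j, hij, hd, h⟩
          rcases h with ⟨rfl, h2, h3⟩ | ⟨h1, h2, h3⟩ | ⟨rfl, h2, h3⟩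
          · exact absurd h3.symm hij
          · rw [h1, h2]; exact hd
          · exact absurd h2.symm hij
      · by_cases h3 : b = d
        · subst h3
          simp only [h1, if_true, if_false, ne_eq, not_true_eq_false, and_false, false_or]
          constructor
          · intro h
            exact ⟨b, a, fun e => h1 e.symm, h, Or.inl ⟨rfl, rfl, rfl⟩⟩
          · rintro ⟨i, j, hij, hd, h⟩
            rcases h with ⟨h1, h2, h3⟩ | ⟨rfl, h2, h3⟩ | ⟨rfl, h2, h3⟩
            · rw [h1, h2]; exact hd
            · exact absurd h3.symm hij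
            · exact absurd h3.symm hij
        · simp only [h1, h2, h3, if_false, ne_eq, not_false_eq_true, and_self, and_true]
          constructor
          · exact fun h => Or.inl h
          · rintro (h | ⟨i, j, hij, hd, h⟩)
            · exact h
            · rcases h with ⟨_, h2', h3'⟩ | ⟨_, h2', h3'⟩ | ⟨_, h2', h3'⟩
              · exact absurd (h2'.trans h3'.symm) h3
              · exact absurd (h2'.trans h3'.symm) h2
              · exact absurd (h2'.trans h3'.symm) h1
  · constructor
    · intro h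
      exact absurd (gr_three D τ c e h) h3
    · intro h
      exfalso
      apply h3
      rcases mem_union.mp h with h | h
      · by_cases ht : τ = true
        · simp only [ht, if_true] at h
          unfold ones at h
          obtain ⟨⟨x, y, z⟩, hp, rfl⟩ := mem_image.mp h
          simp only [mem_product, mem_cl] at hp
          obtain ⟨cx, cy, cz⟩ := hp
          refine card_eq_three.mpr ⟨x, y, z, ?_, ?_, ?_, rfl⟩
          · rintro rfl; exact absurd (cx.symm.trans cy) (by decide)
          · rintro rfl; exact absurd (cx.symm.trans cz) (by decide)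
          · rintro rfl; exact absurd (cy.symm.trans cz) (by decide)
        · simp [ht] at h
      · obtain ⟨⟨i, j⟩, hp, h⟩ := mem_biUnion.mp h
        have hij : i ≠ j := (mem_filter.mp hp).2
        by_cases hd : D i j = true
        · simp only [hd, if_true] at h
          exact onetwo_three (cl_disj c hij.symm) h
        · simp [hd] at h

theorem gr_card (D : Fin 3 → Fin 3 → Bool) (τ : Bool) {k : ℕ} (c : Fin k → Fin 3) :
    (gr D τ c).card = num D τ fun i => (cl c i).card := by
  rw [gr_eq, card_union_of_disjoint, card_biUnion]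
  · unfold num
    congr 1
    · by_cases ht : τ = true
      · simp only [ht, if_true]
        exact ones_card
      · simp [ht]
    · refine sum_congr rfl fun p hp => ?_
      have hij : p.1 ≠ p.2 := (mem_filter.mp hp).2
      by_cases hd : D p.1 p.2 = true
      · simp only [hd, if_true]
        exact onetwo_card (cl_disj c hij.symm)
      · simp [hd]
  · intro p hp q hq hpq
    have hp' : p.1 ≠ p.2 := (mem_filter.mp hp).2
    have hq' : q.1 ≠ q.2 := (mem_filter.mp hq).2
    simp only [Function.onFun]
    rw [disjoint_left]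
    intro e h1 h2
    by_cases hd : D p.1 p.2 = true
    · by_cases hd' : D q.1 q.2 = true
      · simp only [hd, hd', if_true] at h1 h2
        have h3 := onetwo_three (cl_disj c hp'.symm) h1
        obtain ⟨u, v, w, huv, huw, hvw, rfl⟩ := card_eq_three.mp h3
        rw [mem_onetwo' hp' huv huw hvw] at h1
        rw [mem_onetwo' hq' huv huw hvw] at h2
        apply hpq
        rcases h1 with ⟨a1, a2, a3⟩ | ⟨a1, a2, a3⟩ | ⟨a1, a2, a3⟩ <;>
          rcases h2 with ⟨b1, b2, b3⟩ | ⟨b1, b2, b3⟩ | ⟨b1, b2, b3⟩ <;>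
          first
          | exact Prod.ext (a2.symm.trans b2) (a1.symm.trans b1)
          | exact Prod.ext (a3.symm.trans b3) (a1.symm.trans b1)
          | (exfalso
             first
             | exact hp' (a2.symm.trans ((by rw [← b2] at b3; exact b3.symm) ▸ a1))
             | (have x1 := a1; have x2 := a2; have x3 := a3; rw [b1] at *; simp_all))
      · simp [hd'] at h2
    · simp [hd] at h1
  · rw [disjoint_left]
    intro e h1 h2
    by_cases ht : τ = true
    · simp only [ht, if_true] at h1
      obtain ⟨⟨i, j⟩, hp, h2⟩ := mem_biUnion.mp h2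
      have hij : i ≠ j := (mem_filter.mp hp).2
      by_cases hd : D i j = true
      · simp only [hd, if_true] at h2
        have h3 := onetwo_three (cl_disj c hij.symm) h2
        obtain ⟨u, v, w, huv, huw, hvw, rfl⟩ := card_eq_three.mp h3
        rw [mem_onetwo' hij huv huw hvw] at h2
        rw [mem_ones huv huw hvw] at h1
        obtain ⟨n1, n2, n3⟩ := h1
        rcases h2 with ⟨-, b2, b3⟩ | ⟨-, b2, b3⟩ | ⟨-, b2, b3⟩
        · exact n3 (b2.trans b3.symm)
        · exact n2 (b2.trans b3.symm)
        · exact n1 (b2.trans b3.symm)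
      · simp [hd] at h2
    · simp [ht] at h1

end Pool.Agent.Helper38.TP4
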