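import Pool.Agent.Helper38.TP4.Thirteen

/-!
# Numbers of edges of sets of `k` vertices
-/

set_option autoImplicit false

open Finset
open scoped Classical

namespace Pool.Agent.Helper38.TP4

open Pool.Agent.N442.LP Pool.Agent.Helper38.TP3

/-- The number of sets of `k` vertices for which the number of edges of `H` in the set is in `E`. -/
noncomputable def spnE {n : ℕ} (H : Finset (Finset (Fin n))) (k : ℕ) (E : Set ℕ) : ℕ :=
  (((univ : Finset (Fin n)).powersetCard k).filter fun S =>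
    (H.filter fun t => t ⊆ S).card ∈ E).card

theorem spn_le_spnE {n : ℕ} (H : Finset (Finset (Fin n))) (k : ℕ) {E : Set ℕ} {e : ℕ} (he : e ∈ E) :
    spn H k e ≤ spnE H k E := by
  unfold spn spnE
  refine card_le_card fun S hS => ?_
  rw [mem_filter] at hS ⊢
  exact ⟨hS.1, by rw [hS.2]; exact he⟩

/-- the number of edges, explicitly -/
def nu (D : Fin 3 → Fin 3 → Bool) (τ : Bool) (a b c : ℕ) : ℕ :=
  (if τ then a * b * c else 0) +
    (if D 0 1 then a.choose 2 * b else 0) + (if D 0 2 then a.choose 2 * c else 0) +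
    (if D 1 0 then b.choose 2 * a else 0) + (if D 1 2 then b.choose 2 * c else 0) +
    (if D 2 0 then c.choose 2 * a else 0) + (if D 2 1 then c.choose 2 * b else 0)

theorem prs_eq : prs = {(0, 1), (0, 2), (1, 0), (1, 2), (2, 0), (2, 1)} := by decide

theorem num_eq (D : Fin 3 → Fin 3 → Bool) (τ : Bool) (s : Fin 3 → ℕ) :
    num D τ s = nu D τ (s 0) (s 1) (s 2) := by
  unfold num nu
  rw [prs_eq]
  rw [sum_insert (by decide), sum_insert (by decide), sum_insert (by decide), sum_insert (by decide),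
    sum_insert (by decide), sum_singleton]
  simp only [mul_comm]
  ring

/-- every bad pattern has an induced subgraph on `k` vertices with a number of edges in `E` -/
def Hit (k : ℕ) (E : Set ℕ) : Prop :=
  ∀ D τ, Bad D τ → ∃ a b c : ℕ, a + b + c = k ∧ nu D τ a b c ∈ E

theorem hit_gr {k : ℕ} {E : Set ℕ} (h : Hit k E) (p : BI) :
    ∃ c : Fin k → Fin 3, (gr p.1.1 p.1.2 c).card ∈ E := by
  obtain ⟨a, b, d, h1, h2⟩ := h p.1.1 p.1.2 p.2
  obtain ⟨c, c0, c1, c2⟩ := exists_cl h1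
  refine ⟨c, ?_⟩
  rw [gr_card, num_eq, c0, c1, c2]
  exact h2

/-- **Sizes.** -/
theorem thm13S {m : ℕ} (hm : 3 ≤ m) {k : ℕ} {E : Set ℕ} (hE : Hit k E) {ε : ℝ} (hε : 0 < ε) :
    ∃ δ : ℝ, 0 < δ ∧ ∃ N : ℕ, ∀ n : ℕ, N ≤ n → ∀ G : Finset (Finset (Fin n)),
      (∀ e ∈ G, e.card = 3) → KFree m G → (spnE G k E : ℝ) ≤ δ * (n : ℝ) ^ k →
      (G.card : ℝ) ≤ (rho (m - 1) + ε) * (n.choose 3 : ℝ) := by
  choose c hc using hit_gr hE
  obtain ⟨δ, hδ, N, hN⟩ := thm13F hm (fun p => gr p.1.1 p.1.2 (c p)) k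
    (fun p => gr_sub p.1.1 p.1.2 (c p)) hε
  refine ⟨δ / ((k : ℝ) ^ k + 1), by positivity, N, fun n hn G h3 hK h => hN n hn G h3 hK fun p => ?_⟩
  have h0 := (cps_le_spn (gr_three p.1.1 p.1.2 (c p)) rfl h3).trans
    (Nat.mul_le_mul_left (k ^ k) (spn_le_spnE G k (hc p)))
  have h1 := (Nat.cast_le (α := ℝ)).2 h0
  push_cast at h1
  rw [Fintype.card_fin]
  have hk : (0 : ℝ) ≤ (k : ℝ) ^ k := by positivity
  calc (cps (gr p.1.1 p.1.2 (c p)) G : ℝ) ≤ (k : ℝ) ^ k * (spnE G k E : ℝ) := h1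
    _ ≤ (k : ℝ) ^ k * (δ / ((k : ℝ) ^ k + 1) * (n : ℝ) ^ k) := mul_le_mul_of_nonneg_left h hk
    _ = ((k : ℝ) ^ k / ((k : ℝ) ^ k + 1)) * (δ * (n : ℝ) ^ k) := by ring
    _ ≤ 1 * (δ * (n : ℝ) ^ k) := by
        refine mul_le_mul_of_nonneg_right ?_ (by positivity)
        rw [div_le_one (by positivity)]
        linarith
    _ = δ * (n : ℝ) ^ k := one_mul _

/-- `nu` for seven bits -/
def nu7 (d01 d02 d10 d12 d20 d21 τ : Bool) (a b c : ℕ) : ℕ :=
  (if τ then a * b * c else 0) +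
    (if d01 then a.choose 2 * b else 0) + (if d02 then a.choose 2 * c else 0) +
    (if d10 then b.choose 2 * a else 0) + (if d12 then b.choose 2 * c else 0) +
    (if d20 then c.choose 2 * a else 0) + (if d21 then c.choose 2 * b else 0)

/-- `Bad` for seven bits -/
def bad7 (d01 d02 d10 d12 d20 d21 τ : Bool) : Bool :=
  (!τ && (d01 || d10) && (d02 || d20) && (d12 || d21)) ||
  (τ && ((!d01 && !d10 && (!d02 || !d12)) || (!d02 && !d20 && (!d01 || !d21)) ||
    (!d12 && !d21 && (!d10 || !d20))))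

theorem bad_iff (D : Fin 3 → Fin 3 → Bool) (τ : Bool) :
    Bad D τ ↔ bad7 (D 0 1) (D 0 2) (D 1 0) (D 1 2) (D 2 0) (D 2 1) τ = true := by
  unfold Bad
  have e1 : (∀ i j : Fin 3, i ≠ j → D i j = true ∨ D j i = true) ↔
      (D 0 1 = true ∨ D 1 0 = true) ∧ (D 0 2 = true ∨ D 2 0 = true) ∧
        (D 1 2 = true ∨ D 2 1 = true) := by
    constructor
    · intro h
      exact ⟨h 0 1 (by decide), h 0 2 (by decide), h 1 2 (by decide)⟩
    · rintro ⟨h1, h2, h3⟩ i j hij
      fin_cases i <;> fin_cases j <;> first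
        | exact absurd rfl hij
        | assumption
        | exact h1.symm
        | exact h2.symm
        | exact h3.symm
  have e2 : (∃ i j l : Fin 3, i ≠ j ∧ i ≠ l ∧ j ≠ l ∧ D i j = false ∧ D j i = false ∧
      D i l = false) ↔
      (D 0 1 = false ∧ D 1 0 = false ∧ (D 0 2 = false ∨ D 1 2 = false)) ∨
      (D 0 2 = false ∧ D 2 0 = false ∧ (D 0 1 = false ∨ D 2 1 = false)) ∨
      (D 1 2 = false ∧ D 2 1 = false ∧ (D 1 0 = false ∨ D 2 0 = false)) := by
    constructor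
    · rintro ⟨i, j, l, h1, h2, h3, h4, h5, h6⟩
      fin_cases i <;> fin_cases j <;> fin_cases l <;>
        first
        | exact absurd rfl h1
        | exact absurd rfl h2
        | exact absurd rfl h3
        | (simp only [Fin.zero_eta, Fin.mk_one, Fin.reduceFinMk] at h4 h5 h6; simp [h4, h5, h6])
    · rintro (⟨h1, h2, h3 | h3⟩ | ⟨h1, h2, h3 | h3⟩ | ⟨h1, h2, h3 | h3⟩)
      · exact ⟨0, 1, 2, by decide, by decide, by decide, h1, h2, h3⟩
      · exact ⟨1, 0, 2, by decide, by decide, by decide, h2, h1, h3⟩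
      · exact ⟨0, 2, 1, by decide, by decide, by decide, h1, h2, h3⟩
      · exact ⟨2, 0, 1, by decide, by decide, by decide, h2, h1, h3⟩
      · exact ⟨1, 2, 0, by decide, by decide, by decide, h1, h2, h3⟩
      · exact ⟨2, 1, 0, by decide, by decide, by decide, h2, h1, h3⟩
  rw [e1, e2]
  generalize D 0 1 = d01
  generalize D 0 2 = d02
  generalize D 1 0 = d10
  generalize D 1 2 = d12
  generalize D 2 0 = d20
  generalize D 2 1 = d21
  cases d01 <;> cases d02 <;> cases d10 <;> cases d12 <;> cases d20 <;> cases d21 <;> cases τ <;>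
    simp [bad7]

theorem hit7_aux : ∀ d01 d02 d10 d12 d20 d21 τ : Bool, bad7 d01 d02 d10 d12 d20 d21 τ = true →
    ∃ a : Fin 8, ∃ b : Fin 8, ∃ c : Fin 8, a.val + b.val + c.val = 7 ∧
      (nu7 d01 d02 d10 d12 d20 d21 τ a b c = 9 ∨ nu7 d01 d02 d10 d12 d20 d21 τ a b c = 10 ∨
        nu7 d01 d02 d10 d12 d20 d21 τ a b c = 22) := by
  decide

theorem hit7 : Hit 7 {9, 10, 22} := by
  intro D τ h
  obtain ⟨a, b, c, h1, h2⟩ := hit7_aux _ _ _ _ _ _ _ ((bad_iff D τ).mp h)
  exact ⟨a, b, c, h1, h2⟩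

end Pool.Agent.Helper38.TP4
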