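import Pool.Agent.Helper38.TP4.Pat

/-!
# Thirteen pieces
-/

set_option autoImplicit false

open Finset
open scoped Classical

namespace Pool.Agent.Helper38.TP4

open Pool.Agent.N442.LP Pool.Agent.Helper38.TP3

/-- The bad three-class patterns: transversal triples are not edges and no two classes are far; or
transversal triples are edges, two classes are far, and there are no edges with two vertices in one
of them and one in the third class. -/
def Bad (D : Fin 3 → Fin 3 → Bool) (τ : Bool) : Prop :=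
  (τ = false ∧ ∀ i j, i ≠ j → D i j = true ∨ D j i = true) ∨
  (τ = true ∧ ∃ i j l, i ≠ j ∧ i ≠ l ∧ j ≠ l ∧ D i j = false ∧ D j i = false ∧ D i l = false)

instance (D : Fin 3 → Fin 3 → Bool) (τ : Bool) : Decidable (Bad D τ) := by
  unfold Bad; infer_instance

/-- the index set of the family -/
def BI : Type := {p : (Fin 3 → Fin 3 → Bool) × Bool // Bad p.1 p.2}

noncomputable instance : Fintype BI := by unfold BI; infer_instance

theorem inj3 {V : Type} {i j l : V} (hij : i ≠ j) (hil : i ≠ l) (hjl : j ≠ l) :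
    Function.Injective ![i, j, l] := by
  have h1 := hij.symm
  have h2 := hil.symm
  have h3 := hjl.symm
  intro a b hab
  fin_cases a <;> fin_cases b <;> simp_all

/-- **Local theorem, thirteen pieces.** -/
theorem loc13 {m : ℕ} (hm : 3 ≤ m) (k t : ℕ) (hk : 0 < k) : ∃ T : ℕ, 0 < T ∧
    ∀ (n : ℕ) (G : Finset (Finset (Fin n))), KFree m G →
    ∀ (X : Finset (Finset (Fin k))) (y : Fin k → Fin T → Fin n),
    (∀ f : Fin k → Fin T, (fun i => y i (f i)) ∈ SX G X) → (∀ i, Function.Injective (y i)) →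
    rho (m - 1) * (k : ℝ) ^ 3 < ((QT X).card : ℝ) →
    BC (fun p : BI => pt p.1.1 p.1.2 t) k T n G y := by
  obtain ⟨T', hT, h⟩ := loc m k t
  refine ⟨T', by omega, fun n G hK X y hsel hinj hX => ?_⟩
  obtain ⟨P, z, hP, hz, hI, hR, hPX⟩ := h n G hK X y hsel hinj
  have : Nonempty (Fin k) := ⟨⟨0, hk⟩⟩
  have hcap := fun A S hAS h1 h2 => cap_of_real (by omega) hK hP hR hI A S hAS h1 h2
  by_contra hno
  have key : ∀ i j l : Fin k, i ≠ j → i ≠ l → j ≠ l →
      ¬ Bad (fun a b => decide (P (![i, j, l] a) (![i, j, l] a) (![i, j, l] b)))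
        (decide (P (![i, j, l] 0) (![i, j, l] 1) (![i, j, l] 2))) := by
    intro i j l hij hil hjl hb
    exact hno ⟨⟨(_, _), hb⟩, (pos' hP hR hI (inj3 hij hil hjl)).comp hz⟩
  have rule : ∀ i j c, i ≠ j → Far P i j → P i j c → P i i c := by
    intro i j c hij hf hc
    by_contra hn
    have hic : i ≠ c := by
      rintro rfl
      exact hf.1 (hP.s23 hc)
    have hjc : j ≠ c := by
      rintro rfl
      exact hf.2 (hP.s23 (hP.s12 hc))
    refine key i j c hij hic hjc (Or.inr ⟨?_, 0, 1, 2, by decide, by decide, by decide, ?_, ?_, ?_⟩)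
    · exact decide_eq_true hc
    · exact decide_eq_false hf.1
    · exact decide_eq_false hf.2
    · exact decide_eq_false hn
  have hQ : ∀ i j c, i ≠ j → j ≠ c → i ≠ c → ¬ P i j c → Far P i j ∨ Far P j c ∨ Far P i c := by
    intro i j c hij hjc hic hn
    by_contra hcon
    push Not at hcon
    obtain ⟨f1, f2, f3⟩ := hcon
    unfold Far at f1 f2 f3
    push Not at f1 f2 f3
    refine key i j c hij hic hjc (Or.inl ⟨decide_eq_false hn, ?_⟩)
    intro a b hab
    fin_cases a <;> fin_cases b <;> first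
      | exact absurd rfl hab
      | (simp only [decide_eq_true_eq]; simp; tauto)
  have hb := bound2 hP (m - 1) hcap (fun i j c hij hf hc => ⟨rule i j c hij hf hc,
    rule j i c hij.symm ⟨hf.2, hf.1⟩ (hP.s12 hc)⟩) hQ (fun _ => 1 / (k : ℝ)) (smp_uniform hk)
  exact absurd hX (not_lt.mpr (rho_le (by omega) (T_uniform hPX) hb))

theorem thm13 {m : ℕ} (hm : 3 ≤ m) (t : ℕ) {ε : ℝ} (hε : 0 < ε) : ∃ δ : ℝ, 0 < δ ∧ ∃ N : ℕ,
    ∀ n : ℕ, N ≤ n → ∀ G : Finset (Finset (Fin n)), (∀ e ∈ G, e.card = 3) → KFree m G →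
      (∑ p : BI, qc (pt p.1.1 p.1.2 t) n G) ≤ δ →
      (G.card : ℝ) ≤ (rho (m - 1) + ε) * (n.choose 3 : ℝ) :=
  main_abs m (rho (m - 1)) (BC (fun p : BI => pt p.1.1 p.1.2 t))
    (fun n G => ∑ p : BI, qc (pt p.1.1 p.1.2 t) n G) (rho_nonneg (by omega))
    (hq_fam (fun p : BI => pt p.1.1 p.1.2 t)) (fun k hk => loc13 hm k t hk) hε

/-- **Few induced copies of a subgraph of every piece.** -/
theorem thm13F {m : ℕ} (hm : 3 ≤ m) {α : BI → Type} [∀ p, Fintype (α p)]
    (F : ∀ p, Finset (Finset (α p))) (t : ℕ) (hF : ∀ p : BI, Sub (F p) (pt p.1.1 p.1.2 t)) {ε : ℝ}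
    (hε : 0 < ε) :
    ∃ δ : ℝ, 0 < δ ∧ ∃ N : ℕ, ∀ n : ℕ, N ≤ n → ∀ G : Finset (Finset (Fin n)),
      (∀ e ∈ G, e.card = 3) → KFree m G →
      (∀ p, (cps (F p) G : ℝ) ≤ δ * (n : ℝ) ^ Fintype.card (α p)) →
      (G.card : ℝ) ≤ (rho (m - 1) + ε) * (n.choose 3 : ℝ) := by
  obtain ⟨δ, hδ, N, hN⟩ := thm13 hm t hε
  obtain ⟨q, hq⟩ : ∃ q : ℝ, q = (Fintype.card BI : ℝ) := ⟨_, rfl⟩
  have hq0 : 0 ≤ q := by rw [hq]; exact Nat.cast_nonneg _
  refine ⟨δ / (q + 1), by positivity, max N 1, fun n hn G h3 hK h => ?_⟩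
  have hn1 : 0 < n := (le_max_right _ _).trans hn
  have hn' : (0 : ℝ) < n := by exact_mod_cast hn1
  refine hN n ((le_max_left _ _).trans hn) G h3 hK ?_
  have h1 : ∀ p ∈ (univ : Finset BI), qc (pt p.1.1 p.1.2 t) n G ≤ δ / (q + 1) := by
    intro p _
    refine ((hF p).qc_le hn1 G).trans ?_
    unfold qc
    rw [div_le_iff₀ (by positivity)]
    exact h p
  refine (sum_le_sum h1).trans ?_
  rw [sum_const, card_univ, nsmul_eq_mul, ← hq, mul_div_assoc', div_le_iff₀ (by positivity)]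
  nlinarith

end Pool.Agent.Helper38.TP4
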