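import Pool.Agent.Helper38.TP4.Sizes
import Pool.Agent.Helper38.TP3.Ext

/-!
# The numbers of edges of the subsets of Turán's constructions
-/

set_option autoImplicit false

open Finset

namespace Pool.Agent.Helper38.TP4

open Pool.Agent.N442.LP Pool.Agent.N442.LP.Tur Pool.Agent.Helper38.TP3

/-- the vertices of `S` in the block `β` -/
def BS (L : ℕ) {n : ℕ} (S : Finset (Fin n)) (β : ℕ) : Finset (Fin n) :=
  S.filter fun v => blk L (v.val % L) = β

/-- the vertices of `S` of the colour `r` -/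
def CS (L : ℕ) {n : ℕ} (S : Finset (Fin n)) (r : ℕ) : Finset (Fin n) :=
  S.filter fun v => v.val % L = r

theorem mem_BS {L n : ℕ} {S : Finset (Fin n)} {β : ℕ} {v : Fin n} :
    v ∈ BS L S β ↔ v ∈ S ∧ blk L (v.val % L) = β := mem_filter

theorem mem_CS {L n : ℕ} {S : Finset (Fin n)} {r : ℕ} {v : Fin n} :
    v ∈ CS L S r ↔ v ∈ S ∧ v.val % L = r := mem_filter

/-- the missing triples in `S` -/
def MS (L : ℕ) {n : ℕ} (S : Finset (Fin n)) : Finset (Finset (Fin n)) :=
  (mis L n).filter fun e => e ⊆ S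

theorem tri_sub {V : Type} [DecidableEq V] {u v w : V} {S : Finset V} :
    ({u, v, w} : Finset V) ⊆ S ↔ u ∈ S ∧ v ∈ S ∧ w ∈ S := by
  constructor
  · intro h
    exact ⟨h (by simp), h (by simp), h (by simp)⟩
  · rintro ⟨h1, h2, h3⟩ x hx
    simp only [mem_insert, mem_singleton] at hx
    rcases hx with rfl | rfl | rfl <;> assumption

theorem blk_le (L r : ℕ) (h : r < L) : blk L r < L + 1 := by
  unfold blk; split_ifs <;> omega

theorem MS_even {L n : ℕ} (hL : L % 2 = 0) (hL0 : 0 < L) (S : Finset (Fin n)) :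
    MS L S = (range (L + 1)).biUnion fun β => (BS L S β).powersetCard 3 := by
  ext e
  rw [mem_biUnion]
  constructor
  · intro h
    obtain ⟨h1, h2⟩ := mem_filter.mp h
    have h3 : e.card = 3 := (mem_powersetCard.mp (mem_filter.mp h1).1).2
    obtain ⟨u, v, w, huv, huw, hvw, rfl⟩ := card_eq_three.mp h3
    rw [mem_mis huv hvw huw] at h1
    obtain ⟨a1, a2, a3⟩ := tri_sub.mp h2
    refine ⟨blk L (u.val % L), mem_range.mpr (blk_le _ _ (Nat.mod_lt _ hL0)),
      mem_powersetCard.mpr ⟨tri_sub.mpr ⟨mem_BS.mpr ⟨a1, rfl⟩, mem_BS.mpr ⟨a2, h1.1.symm⟩,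
        mem_BS.mpr ⟨a3, (h1.1.trans h1.2.1).symm⟩⟩, h3⟩⟩
  · rintro ⟨β, -, h⟩
    obtain ⟨h1, h3⟩ := mem_powersetCard.mp h
    obtain ⟨u, v, w, huv, huw, hvw, rfl⟩ := card_eq_three.mp h3
    obtain ⟨a1, a2, a3⟩ := tri_sub.mp h1
    rw [mem_BS] at a1 a2 a3
    refine mem_filter.mpr ⟨(mem_mis huv hvw huw).mpr ⟨a1.2.trans a2.2.symm, a2.2.trans a3.2.symm,
      Or.inl hL⟩, tri_sub.mpr ⟨a1.1, a2.1, a3.1⟩⟩

theorem BS_disj {L n : ℕ} {S : Finset (Fin n)} {β γ : ℕ} (h : β ≠ γ) :
    Disjoint (BS L S β) (BS L S γ) :=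
  disjoint_left.mpr fun _ h1 h2 => h ((mem_BS.mp h1).2.symm.trans (mem_BS.mp h2).2)

theorem CS_disj {L n : ℕ} {S : Finset (Fin n)} {β γ : ℕ} (h : β ≠ γ) :
    Disjoint (CS L S β) (CS L S γ) :=
  disjoint_left.mpr fun _ h1 h2 => h ((mem_CS.mp h1).2.symm.trans (mem_CS.mp h2).2)

theorem pow_disj {V : Type} [DecidableEq V] {A B : Finset V} (h : Disjoint A B) :
    Disjoint (A.powersetCard 3) (B.powersetCard 3) := by
  rw [disjoint_left]
  intro e h1 h2
  obtain ⟨a1, a2⟩ := mem_powersetCard.mp h1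
  obtain ⟨b1, -⟩ := mem_powersetCard.mp h2
  obtain ⟨x, hx⟩ := card_pos.mp (by omega : 0 < e.card)
  exact disjoint_left.mp h (a1 hx) (b1 hx)

theorem MS_even_card {L n : ℕ} (hL : L % 2 = 0) (hL0 : 0 < L) (S : Finset (Fin n)) :
    (MS L S).card = ∑ β ∈ range (L + 1), (BS L S β).card.choose 3 := by
  rw [MS_even hL hL0, card_biUnion]
  · simp only [card_powersetCard]
  · intro a _ b _ hab
    exact pow_disj (BS_disj hab)

theorem BS_sum {L n : ℕ} (hL0 : 0 < L) (S : Finset (Fin n)) :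
    ∑ β ∈ range (L + 1), (BS L S β).card = S.card := by
  symm
  exact card_eq_sum_card_fiberwise (f := fun v : Fin n => blk L (v.val % L))
    (fun v _ => mem_coe.mpr (mem_range.mpr (blk_le _ _ (Nat.mod_lt _ hL0))))

/-- the missing triples in the first block of Turán's construction for an odd `L` -/
def M0 (L : ℕ) {n : ℕ} (S : Finset (Fin n)) : Finset (Finset (Fin n)) :=
  (range 3).biUnion fun r => (CS L S r).powersetCard 3 ∪
    (CS L S ((r + 2) % 3) ×ˢ (CS L S r).powersetCard 2).image fun p => insert p.1 p.2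

theorem ot_card {V : Type} [DecidableEq V] {A B : Finset V} (h : Disjoint A B) :
    ((A ×ˢ B.powersetCard 2).image fun p => insert p.1 p.2).card = A.card * B.card.choose 2 := by
  rw [card_image_of_injOn, card_product, card_powersetCard]
  rintro ⟨x, p⟩ hx ⟨x', p'⟩ hx' he
  rw [mem_coe, mem_product, mem_powersetCard] at hx hx'
  simp only at hx hx' he
  have hn : ∀ z ∈ A, z ∉ B := fun z hz => disjoint_left.mp h hz
  have h1 : x = x' := by
    have : x ∈ insert x' p' := he ▸ mem_insert_self x p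
    rcases mem_insert.mp this with h2 | h2
    · exact h2
    · exact absurd (hx'.2.1 h2) (hn x hx.1)
  subst h1
  have hxp : x ∉ p := fun h2 => hn x hx.1 (hx.2.1 h2)
  have hxp' : x ∉ p' := fun h2 => hn x hx.1 (hx'.2.1 h2)
  have : p = p' := by
    rw [← erase_insert hxp, ← erase_insert hxp', he]
  rw [this]

theorem mem_ot {V : Type} [DecidableEq V] {A B : Finset V} (h : Disjoint A B) {u v w : V}
    (huv : u ≠ v) (huw : u ≠ w) (hvw : v ≠ w) :
    ({u, v, w} : Finset V) ∈ ((A ×ˢ B.powersetCard 2).image fun p => insert p.1 p.2) ↔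
      (u ∈ A ∧ v ∈ B ∧ w ∈ B) ∨ (v ∈ A ∧ u ∈ B ∧ w ∈ B) ∨ (w ∈ A ∧ u ∈ B ∧ v ∈ B) := by
  have h3 : ({u, v, w} : Finset V).card = 3 := card_eq_three.mpr ⟨u, v, w, huv, huw, hvw, rfl⟩
  have hvu := huv.symm
  have hwu := huw.symm
  have hwv := hvw.symm
  have key : ({u, v, w} : Finset V) ∈ ((A ×ˢ B.powersetCard 2).image fun p => insert p.1 p.2) ↔
      ∃ x ∈ A, x ∈ ({u, v, w} : Finset V) ∧ ∀ y ∈ ({u, v, w} : Finset V), y ≠ x → y ∈ B := by
    rw [mem_image]
    constructor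
    · rintro ⟨⟨x, p⟩, hp, he⟩
      rw [mem_product, mem_powersetCard] at hp
      simp only at hp he
      rw [← he]
      refine ⟨x, hp.1, mem_insert_self _ _, ?_⟩
      intro y hy hyx
      exact hp.2.1 ((mem_insert.mp hy).resolve_left hyx)
    · rintro ⟨x, hx, hxe, hB⟩
      refine ⟨(x, ({u, v, w} : Finset V).erase x), ?_, insert_erase hxe⟩
      rw [mem_product, mem_powersetCard]
      refine ⟨hx, ?_, by rw [card_erase_of_mem hxe, h3]⟩
      intro y hy
      exact hB y (mem_of_mem_erase hy) (ne_of_mem_erase hy)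
  rw [key]
  simp only [mem_insert, mem_singleton, forall_eq_or_imp, forall_eq]
  constructor
  · rintro ⟨x, hx, rfl | rfl | rfl, h1, h2, h3⟩
    · exact Or.inl ⟨hx, h2 hvu, h3 hwu⟩
    · exact Or.inr (Or.inl ⟨hx, h1 huv, h3 hwv⟩)
    · exact Or.inr (Or.inr ⟨hx, h1 huw, h2 hvw⟩)
  · rintro (⟨h1, h2, h3⟩ | ⟨h1, h2, h3⟩ | ⟨h1, h2, h3⟩)
    · exact ⟨u, h1, Or.inl rfl, fun h => absurd rfl h, fun _ => h2, fun _ => h3⟩
    · exact ⟨v, h1, Or.inr (Or.inl rfl), fun _ => h2, fun h => absurd rfl h, fun _ => h3⟩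
    · exact ⟨w, h1, Or.inr (Or.inr rfl), fun _ => h2, fun _ => h3, fun h => absurd rfl h⟩

theorem ot_three {V : Type} [DecidableEq V] {A B : Finset V} (h : Disjoint A B) {e : Finset V}
    (he : e ∈ ((A ×ˢ B.powersetCard 2).image fun p => insert p.1 p.2)) : e.card = 3 := by
  obtain ⟨⟨x, p⟩, hp, rfl⟩ := mem_image.mp he
  rw [mem_product, mem_powersetCard] at hp
  simp only at hp ⊢
  rw [card_insert_of_notMem (fun h2 => disjoint_left.mp h hp.1 (hp.2.1 h2)), hp.2.2]

theorem r2 (r : ℕ) (h : r < 3) : (r + 2) % 3 ≠ r := by omega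

theorem M0_card {L n : ℕ} (S : Finset (Fin n)) :
    (M0 L S).card = ∑ r ∈ range 3, ((CS L S r).card.choose 3 +
      (CS L S ((r + 2) % 3)).card * (CS L S r).card.choose 2) := by
  unfold M0
  rw [card_biUnion]
  · refine sum_congr rfl fun r hr => ?_
    have hr3 := mem_range.mp hr
    rw [card_union_of_disjoint, card_powersetCard, ot_card (CS_disj (r2 r hr3))]
    rw [disjoint_left]
    intro e h1 h2
    obtain ⟨a1, a2⟩ := mem_powersetCard.mp h1
    obtain ⟨⟨x, p⟩, hp, rfl⟩ := mem_image.mp h2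
    rw [mem_product] at hp
    exact disjoint_left.mp (CS_disj (r2 r hr3)) hp.1 (a1 (mem_insert_self x p))
  · intro r hr s hs hrs
    have hr3 := mem_range.mp (mem_coe.mp hr)
    have hs3 := mem_range.mp (mem_coe.mp hs)
    simp only [Function.onFun]
    rw [disjoint_left]
    intro e h1 h2
    have h3 : e.card = 3 := by
      rcases mem_union.mp h1 with h | h
      · exact (mem_powersetCard.mp h).2
      · exact ot_three (CS_disj (r2 r hr3)) h
    obtain ⟨u, v, w, huv, huw, hvw, rfl⟩ := card_eq_three.mp h3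
    rw [mem_union, mem_powersetCard, tri_sub, mem_ot (CS_disj (r2 r hr3)) huv huw hvw] at h1
    rw [mem_union, mem_powersetCard, tri_sub, mem_ot (CS_disj (r2 s hs3)) huv huw hvw] at h2
    simp only [mem_CS] at h1 h2
    omega

theorem MS_odd {L n : ℕ} (hL : L % 2 = 1) (hL0 : 0 < L) (S : Finset (Fin n)) :
    MS L S = (((range (L + 1)).erase 0).biUnion fun β => (BS L S β).powersetCard 3) ∪ M0 L S := by
  ext e
  rw [mem_union, mem_biUnion]
  constructor
  · intro h
    obtain ⟨h1, h2⟩ := mem_filter.mp h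
    have h3 : e.card = 3 := (mem_powersetCard.mp (mem_filter.mp h1).1).2
    obtain ⟨u, v, w, huv, huw, hvw, rfl⟩ := card_eq_three.mp h3
    rw [mem_mis huv hvw huw] at h1
    obtain ⟨a1, a2, a3⟩ := tri_sub.mp h2
    by_cases hb : blk L (u.val % L) = 0
    · right
      have k1 : u.val % L < 3 := by
        unfold blk at hb
        rw [if_neg (by omega)] at hb
        omega
      unfold M0
      rw [mem_biUnion]
      obtain ⟨b1, b2, b3⟩ := h1
      have k2 : v.val % L < 3 := by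
        rw [b1] at hb
        unfold blk at hb
        rw [if_neg (by omega)] at hb
        omega
      have k3 : w.val % L < 3 := by
        rw [b1, b2] at hb
        unfold blk at hb
        rw [if_neg (by omega)] at hb
        omega
      rcases b3 with h | h | h | h | h | h
      · omega
      · exact absurd hb h
      · refine ⟨u.val % L, mem_range.mpr k1, mem_union.mpr (Or.inl (mem_powersetCard.mpr
          ⟨tri_sub.mpr ⟨mem_CS.mpr ⟨a1, rfl⟩, mem_CS.mpr ⟨a2, h.1.symm⟩,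
            mem_CS.mpr ⟨a3, (h.1.trans h.2).symm⟩⟩, h3⟩))⟩
      · refine ⟨u.val % L, mem_range.mpr k1, mem_union.mpr (Or.inr
          ((mem_ot (CS_disj (r2 _ k1)) huv huw hvw).mpr (Or.inr (Or.inr
            ⟨mem_CS.mpr ⟨a3, h.2⟩, mem_CS.mpr ⟨a1, rfl⟩, mem_CS.mpr ⟨a2, h.1.symm⟩⟩))))⟩
      · refine ⟨v.val % L, mem_range.mpr k2, mem_union.mpr (Or.inr
          ((mem_ot (CS_disj (r2 _ k2)) huv huw hvw).mpr (Or.inl
            ⟨mem_CS.mpr ⟨a1, h.2⟩, mem_CS.mpr ⟨a2, rfl⟩, mem_CS.mpr ⟨a3, h.1.symm⟩⟩)))⟩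
      · refine ⟨u.val % L, mem_range.mpr k1, mem_union.mpr (Or.inr
          ((mem_ot (CS_disj (r2 _ k1)) huv huw hvw).mpr (Or.inr (Or.inl
            ⟨mem_CS.mpr ⟨a2, h.2⟩, mem_CS.mpr ⟨a1, rfl⟩, mem_CS.mpr ⟨a3, h.1.symm⟩⟩))))⟩
    · left
      exact ⟨blk L (u.val % L), mem_erase.mpr ⟨hb, mem_range.mpr (blk_le _ _ (Nat.mod_lt _ hL0))⟩,
        mem_powersetCard.mpr ⟨tri_sub.mpr ⟨mem_BS.mpr ⟨a1, rfl⟩, mem_BS.mpr ⟨a2, h1.1.symm⟩,
          mem_BS.mpr ⟨a3, (h1.1.trans h1.2.1).symm⟩⟩, h3⟩⟩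
  · rintro (⟨β, hβ, h⟩ | h)
    · have hβ0 := (mem_erase.mp hβ).1
      obtain ⟨h1, h3⟩ := mem_powersetCard.mp h
      obtain ⟨u, v, w, huv, huw, hvw, rfl⟩ := card_eq_three.mp h3
      obtain ⟨a1, a2, a3⟩ := tri_sub.mp h1
      rw [mem_BS] at a1 a2 a3
      exact mem_filter.mpr ⟨(mem_mis huv hvw huw).mpr ⟨a1.2.trans a2.2.symm, a2.2.trans a3.2.symm,
        Or.inr (Or.inl (by rw [a1.2]; exact hβ0))⟩, tri_sub.mpr ⟨a1.1, a2.1, a3.1⟩⟩
    · unfold M0 at h
      obtain ⟨r, hr, h⟩ := mem_biUnion.mp h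
      have hr3 := mem_range.mp hr
      have h3 : e.card = 3 := by
        rcases mem_union.mp h with h | h
        · exact (mem_powersetCard.mp h).2
        · exact ot_three (CS_disj (r2 r hr3)) h
      obtain ⟨u, v, w, huv, huw, hvw, rfl⟩ := card_eq_three.mp h3
      rw [mem_union, mem_powersetCard, tri_sub, mem_ot (CS_disj (r2 r hr3)) huv huw hvw] at h
      simp only [mem_CS] at h
      have hb : ∀ x : ℕ, x < 3 → blk L x = 0 := by
        intro x hx
        unfold blk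
        rw [if_neg (by omega)]
        omega
      have hs : u ∈ S ∧ v ∈ S ∧ w ∈ S := by tauto
      refine mem_filter.mpr ⟨(mem_mis huv hvw huw).mpr ?_, tri_sub.mpr hs⟩
      have q1 : u.val % L < 3 := by omega
      have q2 : v.val % L < 3 := by omega
      have q3 : w.val % L < 3 := by omega
      refine ⟨by rw [hb _ q1, hb _ q2], by rw [hb _ q2, hb _ q3], Or.inr (Or.inr ?_)⟩
      omega

theorem MS_odd_card {L n : ℕ} (hL : L % 2 = 1) (hL0 : 0 < L) (S : Finset (Fin n)) :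
    (MS L S).card = ∑ β ∈ (range (L + 1)).erase 0, (BS L S β).card.choose 3 +
      ∑ r ∈ range 3, ((CS L S r).card.choose 3 +
        (CS L S ((r + 2) % 3)).card * (CS L S r).card.choose 2) := by
  rw [MS_odd hL hL0, card_union_of_disjoint, card_biUnion, M0_card]
  · simp only [card_powersetCard]
  · intro a _ b _ hab
    exact pow_disj (BS_disj hab)
  · rw [disjoint_left]
    intro e h1 h2
    obtain ⟨β, hβ, h⟩ := mem_biUnion.mp h1
    have hβ0 := (mem_erase.mp hβ).1
    obtain ⟨h1, h3⟩ := mem_powersetCard.mp h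
    obtain ⟨u, v, w, huv, huw, hvw, rfl⟩ := card_eq_three.mp h3
    obtain ⟨a1, a2, a3⟩ := tri_sub.mp h1
    rw [mem_BS] at a1 a2 a3
    unfold M0 at h2
    obtain ⟨r, hr, h⟩ := mem_biUnion.mp h2
    have hr3 := mem_range.mp hr
    rw [mem_union, mem_powersetCard, tri_sub, mem_ot (CS_disj (r2 r hr3)) huv huw hvw] at h
    simp only [mem_CS] at h
    have q1 : u.val % L < 3 := by omega
    apply hβ0
    rw [← a1.2]
    unfold blk
    rw [if_neg (by omega)]
    omega

theorem CS_sum {L n : ℕ} (hL : L % 2 = 1) (S : Finset (Fin n)) :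
    ∑ r ∈ range 3, (CS L S r).card = (BS L S 0).card := by
  symm
  have h := card_eq_sum_card_fiberwise (s := BS L S 0) (t := range 3) (f := fun v : Fin n => v.val % L)
    (by
      intro v hv
      have := (mem_BS.mp (mem_coe.mp hv)).2
      unfold blk at this
      rw [if_neg (by omega)] at this
      rw [mem_coe, mem_range]
      simp only
      omega)
  rw [h]
  refine sum_congr rfl fun r hr => ?_
  have hr3 := mem_range.mp hr
  congr 1
  ext v
  simp only [BS, CS, mem_filter]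
  constructor
  · rintro ⟨⟨h1, -⟩, h2⟩
    exact ⟨h1, h2⟩
  · rintro ⟨h1, h2⟩
    refine ⟨⟨h1, ?_⟩, h2⟩
    unfold blk
    rw [if_neg (by omega)]
    omega

/-- edges and missing triples of `S` -/
theorem tur_mis {L n : ℕ} (S : Finset (Fin n)) :
    ((tur L n).filter fun e => e ⊆ S).card + (MS L S).card = S.card.choose 3 := by
  rw [← card_powersetCard, ← card_union_of_disjoint]
  · congr 1
    ext e
    rw [mem_union, MS, mem_filter, mem_filter, mem_powersetCard]
    unfold tur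
    rw [mem_sdiff, mem_powersetCard]
    constructor
    · rintro (⟨⟨⟨-, h1⟩, -⟩, h2⟩ | ⟨h1, h2⟩)
      · exact ⟨h2, h1⟩
      · exact ⟨h2, (mem_powersetCard.mp (mem_filter.mp h1).1).2⟩
    · rintro ⟨h1, h2⟩
      by_cases h : e ∈ mis L n
      · exact Or.inr ⟨h, h1⟩
      · exact Or.inl ⟨⟨⟨subset_univ _, h2⟩, h⟩, h1⟩
  · rw [disjoint_left]
    intro e h1 h2
    have a1 := (mem_filter.mp h1).1
    have a2 := (mem_filter.mp h2).1
    unfold tur at a1
    exact (mem_sdiff.mp a1).2 a2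

/-! ### Possible values -/

/-- the values of `∑ C(x, 3)` for the partitions of `N ≤ 7` -/
def PV (N : ℕ) : Finset ℕ :=
  match N with
  | 0 => {0}
  | 1 => {0}
  | 2 => {0}
  | 3 => {0, 1}
  | 4 => {0, 1, 4}
  | 5 => {0, 1, 4, 10}
  | 6 => {0, 1, 2, 4, 10, 20}
  | 7 => {0, 1, 2, 4, 5, 10, 20, 35}
  | _ => ∅

theorem PV_step : ∀ N ∈ range 8, ∀ x ∈ range (8 - N), ∀ v ∈ PV N, v + x.choose 3 ∈ PV (N + x) := by
  decide

theorem PV_sum {ι : Type} [DecidableEq ι] (s : Finset ι) (x : ι → ℕ) (h : ∑ i ∈ s, x i ≤ 7) :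
    ∑ i ∈ s, (x i).choose 3 ∈ PV (∑ i ∈ s, x i) := by
  induction s using Finset.induction_on with
  | empty => simp [PV]
  | insert a s ha ih =>
    rw [sum_insert ha] at h ⊢
    rw [sum_insert ha]
    have h1 := ih (by omega)
    have h2 := PV_step _ (mem_range.mpr (by omega : ∑ i ∈ s, x i < 8)) (x a)
      (mem_range.mpr (by omega)) _ h1
    rw [add_comm (x a), add_comm ((x a).choose 3)]
    exact h2

theorem even_vals : ∀ v ∈ PV 7, v ≠ 13 ∧ v ≠ 25 ∧ v ≠ 26 := by decide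

/-- the missing triples for the sizes `a`, `b`, `c` in the first block -/
def cyn (a b c : ℕ) : ℕ :=
  (a.choose 3 + c * a.choose 2) + (b.choose 3 + a * b.choose 2) + (c.choose 3 + b * c.choose 2)

theorem odd_vals : ∀ a ∈ range 8, ∀ b ∈ range (8 - a), ∀ c ∈ range (8 - a - b),
    ∀ v ∈ PV (7 - a - b - c), v + cyn a b c ≠ 13 ∧ v + cyn a b c ≠ 25 ∧ v + cyn a b c ≠ 26 := by
  decide

theorem no7 {L n : ℕ} (hL0 : 0 < L) (S : Finset (Fin n)) (hS : S.card = 7) :
    (MS L S).card ≠ 13 ∧ (MS L S).card ≠ 25 ∧ (MS L S).card ≠ 26 := by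
  have h0 := BS_sum hL0 S
  rcases Nat.mod_two_eq_zero_or_one L with hL | hL
  · rw [MS_even_card hL hL0]
    have h1 := PV_sum (range (L + 1)) (fun β => (BS L S β).card) (by rw [h0, hS])
    rw [h0, hS] at h1
    exact even_vals _ h1
  · rw [MS_odd_card hL hL0]
    have h00 : (0 : ℕ) ∈ range (L + 1) := mem_range.mpr (by omega)
    rw [← add_sum_erase _ _ h00, ← CS_sum hL, hS, sum_range_succ, sum_range_succ, sum_range_one] at h0
    have h1 := PV_sum ((range (L + 1)).erase 0) (fun β => (BS L S β).card) (by omega)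
    rw [sum_range_succ, sum_range_succ, sum_range_one]
    generalize (CS L S 0).card = a at *
    generalize (CS L S 1).card = b at *
    generalize (CS L S 2).card = c at *
    have e1 : ∑ β ∈ (range (L + 1)).erase 0, (BS L S β).card = 7 - a - b - c := by omega
    rw [e1] at h1
    have h2 := odd_vals a (mem_range.mpr (by omega)) b (mem_range.mpr (by omega)) c
      (mem_range.mpr (by omega)) _ h1
    exact h2

end Pool.Agent.Helper38.TP4
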